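import Pool.Agent.X91.BL.Nem

/-! The exponential chart of a family of vector fields `y ↦ R(y) v` with `R(0) = id`. -/

set_option autoImplicit false

open scoped Topology ContDiff
open Set Metric
open Pool.Agent.Helper186

noncomputable section

namespace Pool.Agent.X91.BL

variable {E : Type} [NormedAddCommGroup E] [NormedSpace ℝ E]

/-- Constant maps. -/
def constL : E →L[ℝ] C(K01, E) :=
  (isBoundedLinearMap_constMap (E := E)).toContinuousLinearMap

theorem constL_apply (v : E) : constL v = ContinuousMap.const K01 v := rfl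

/-- The primitive. -/
def primL [CompleteSpace E] : C(K01, E) →L[ℝ] C(K01, E) :=
  (isBoundedLinearMap_primOp (E := E)).toContinuousLinearMap

theorem primL_apply [CompleteSpace E] (γ : C(K01, E)) : primL γ = primOp γ := rfl

/-- The value at the time one. -/
def evL : C(K01, E) →L[ℝ] E :=
  (isBoundedLinearMap_evalMap (E := E) ⟨1, by simp⟩).toContinuousLinearMap

theorem evL_apply (γ : C(K01, E)) : evL γ = γ ⟨1, by simp⟩ := rfl

theorem exists_exp [CompleteSpace E] (R : E → E →L[ℝ] E) {r : ℝ} (hr : 0 < r)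
    (hR : ContDiffOn ℝ ∞ R (ball 0 r)) (hR0 : R 0 = ContinuousLinearMap.id ℝ E)
    {ε : ℝ} (hε : 0 < ε) :
    ∃ T : OpenPartialHomeomorph E E, (0 : E) ∈ T.source ∧ T 0 = 0 ∧ T.source ⊆ ball 0 ε ∧
      ContDiffOn ℝ ∞ T T.source ∧ ContDiffOn ℝ ∞ T.symm T.target ∧
      ∀ v ∈ T.source, ∃ γ : ℝ → E, γ 0 = 0 ∧ γ 1 = T v ∧ (∀ t ∈ Icc (0 : ℝ) 1, ‖γ t‖ < ε) ∧
        ∀ t ∈ Icc (0 : ℝ) 1, HasDerivWithinAt γ (R (γ t) v) (Icc 0 1) t := by
  obtain ⟨s, hs0, hsr⟩ := exists_between hr
  have hcont : Continuous (fun x : E => R (rho s x)) := by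
    rw [← continuousOn_univ]
    refine hR.continuousOn.comp (continuous_rho hs0).continuousOn fun x _ => ?_
    rw [mem_ball_zero_iff]
    exact (norm_rho_le hs0 x).trans_lt hsr
  set Rt : C(E, E →L[ℝ] E) := ⟨fun x => R (rho s x), hcont⟩ with hRt
  have hRtx : ∀ x : E, ‖x‖ ≤ s → Rt x = R x := by
    intro x hx
    simp only [hRt, ContinuousMap.coe_mk]
    rw [rho_of_le hs0 hx]
  have hRs : ContDiffOn ℝ ∞ Rt (ball 0 s) := by
    refine (hR.mono (ball_subset_ball hsr.le)).congr fun x hx => ?_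
    rw [mem_ball_zero_iff] at hx
    exact hRtx x hx.le
  set N : C(K01, E) → C(K01, E →L[ℝ] E) := fun γ => Rt.comp γ with hN
  have hNs : ContDiffOn ℝ ∞ N (ball 0 s) := contDiffOn_comp_ball_infty Rt s hRs
  set F : E × C(K01, E) → C(K01, E) := fun p => primL (ptApply (N p.2) (constL p.1)) with hF
  set O : Set (E × C(K01, E)) := {p | ‖p.2‖ < min s ε} with hO
  have hOo : IsOpen O := isOpen_lt (continuous_snd.norm) continuous_const
  have hm : 0 < min s ε := lt_min hs0 hε
  have h0O : (0 : E × C(K01, E)) ∈ O := by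
    change ‖(0 : E × C(K01, E)).2‖ < min s ε
    simpa using hm
  have hc1 : ContDiffOn ℝ ∞ (fun p : E × C(K01, E) => ptApply (N p.2)) O := by
    refine (contDiff_ptApply (n := ∞)).comp_contDiffOn (hNs.comp contDiff_snd.contDiffOn ?_)
    intro p hp
    rw [mem_ball_zero_iff]
    exact lt_of_lt_of_le hp (min_le_left _ _)
  have hc2 : ContDiffOn ℝ ∞ (fun p : E × C(K01, E) => constL p.1) O :=
    ((constL (E := E)).contDiff.comp contDiff_fst).contDiffOn
  have hFs : ContDiffOn ℝ ∞ F O :=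
    (primL (E := E)).contDiff.comp_contDiffOn (hc1.clm_apply hc2)
  set Ψ : E × C(K01, E) → E × C(K01, E) := fun p => (p.1, p.2 - F p) with hΨ
  have hΨs : ContDiffOn ℝ ∞ Ψ O :=
    contDiff_fst.contDiffOn.prodMk (contDiff_snd.contDiffOn.sub hFs)
  -- the derivative at the origin
  set S : E →L[ℝ] C(K01, E) := primL.comp constL with hS
  have hN0 : N 0 = ContinuousMap.const K01 (ContinuousLinearMap.id ℝ E) := by
    ext1 k
    simp only [hN, ContinuousMap.comp_apply, ContinuousMap.zero_apply, ContinuousMap.const_apply]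
    rw [hRtx 0 (by simpa using hs0.le), hR0]
  have hF0 : HasFDerivAt F (S.comp (ContinuousLinearMap.fst ℝ E C(K01, E))) 0 := by
    have h1 : HasFDerivAt (fun p : E × C(K01, E) => ptApply (N p.2))
        (fderiv ℝ (fun p : E × C(K01, E) => ptApply (N p.2)) 0) 0 :=
      ((hc1.contDiffAt (hOo.mem_nhds h0O)).differentiableAt (by simp)).hasFDerivAt
    have h2 : HasFDerivAt (fun p : E × C(K01, E) => constL p.1)
        (constL.comp (ContinuousLinearMap.fst ℝ E C(K01, E))) 0 :=
      (constL (E := E)).hasFDerivAt.comp (0 : E × C(K01, E)) hasFDerivAt_fst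
    have h3 := (primL (E := E)).hasFDerivAt.comp (0 : E × C(K01, E)) (h1.clm_apply h2)
    refine h3.congr_fderiv (ContinuousLinearMap.ext fun p => ?_)
    simp only [ContinuousLinearMap.comp_apply, hS]
    congr 1
    simp only [_root_.add_apply, ContinuousLinearMap.comp_apply,
      ContinuousLinearMap.flip_apply, Prod.fst_zero, Prod.snd_zero, map_zero, add_zero]
    rw [hN0]
    ext k
    simp
  set e : (E × C(K01, E)) ≃L[ℝ] (E × C(K01, E)) :=
    (ContinuousLinearEquiv.refl ℝ E).skewProd (ContinuousLinearEquiv.refl ℝ C(K01, E)) (-S) with he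
  have hΨ0 : HasFDerivAt Ψ (e : (E × C(K01, E)) →L[ℝ] (E × C(K01, E))) 0 := by
    have h1 : HasFDerivAt Ψ ((ContinuousLinearMap.fst ℝ E C(K01, E)).prod
        ((ContinuousLinearMap.snd ℝ E C(K01, E)) -
          S.comp (ContinuousLinearMap.fst ℝ E C(K01, E)))) 0 :=
      hasFDerivAt_fst.prodMk (hasFDerivAt_snd.sub hF0)
    refine h1.congr_fderiv (ContinuousLinearMap.ext fun p => ?_)
    simp [he, sub_eq_add_neg]
  obtain ⟨T1, hT1, h0T1, hT1O, hT1s⟩ := exists_local_inverse hOo h0O hΨs e hΨ0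
  have hF00 : F 0 = 0 := by
    simp only [hF, Prod.fst_zero, map_zero]
  have hT10 : T1 0 = 0 := by
    rw [hT1]
    simp only [hΨ, Prod.fst_zero, Prod.snd_zero, hF00, sub_zero]
    rfl
  have h0tar : (0 : E × C(K01, E)) ∈ T1.target := by
    have := T1.map_source h0T1
    rwa [hT10] at this
  set ι : E →L[ℝ] E × C(K01, E) := ContinuousLinearMap.inl ℝ E C(K01, E) with hι
  set W : Set E := (ι ⁻¹' T1.target) ∩ ball 0 ε with hW
  have hWo : IsOpen W := (T1.open_target.preimage ι.continuous).inter isOpen_ball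
  have h0W : (0 : E) ∈ W := by
    refine ⟨?_, mem_ball_self hε⟩
    rw [mem_preimage, map_zero]
    exact h0tar
  set Γ : E → C(K01, E) := fun v => (T1.symm (ι v)).2 with hΓ
  have hΓs : ContDiffOn ℝ ∞ Γ W :=
    contDiff_snd.comp_contDiffOn (hT1s.comp ι.contDiff.contDiffOn fun v hv => hv.1)
  have hΓeq : ∀ v ∈ W, ‖Γ v‖ < min s ε ∧ Γ v = F (v, Γ v) := by
    intro v hv
    have h1 : T1.symm (ι v) ∈ T1.source := T1.map_target hv.1
    have h2 : T1 (T1.symm (ι v)) = ι v := T1.right_inv hv.1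
    rw [hT1] at h2
    have h3 : (T1.symm (ι v)).1 = v := congrArg Prod.fst h2
    have h4 : (T1.symm (ι v)).2 - F (T1.symm (ι v)) = 0 := congrArg Prod.snd h2
    have h5 : T1.symm (ι v) = (v, Γ v) := Prod.ext h3 rfl
    refine ⟨hT1O h1, ?_⟩
    rw [← h5]
    exact sub_eq_zero.1 h4
  have hΓ0 : HasFDerivAt Γ S 0 := by
    have h1 : T1.symm 0 = 0 := by
      have := T1.left_inv h0T1
      rwa [hT10] at this
    have hfc : (T1 : E × C(K01, E) → E × C(K01, E)) = Ψ := by funext x; rw [hT1]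
    have h2 : HasFDerivAt T1.symm (e.symm : (E × C(K01, E)) →L[ℝ] (E × C(K01, E))) 0 := by
      refine T1.hasFDerivAt_symm h0tar ?_
      rw [h1, hfc]
      exact hΨ0
    have h3 : HasFDerivAt Γ ((ContinuousLinearMap.snd ℝ E C(K01, E)).comp
        ((e.symm : (E × C(K01, E)) →L[ℝ] (E × C(K01, E))).comp ι)) 0 := by
      have h4 : HasFDerivAt T1.symm (e.symm : (E × C(K01, E)) →L[ℝ] (E × C(K01, E))) (ι 0) := by
        rw [map_zero]; exact h2
      exact hasFDerivAt_snd.comp (0 : E) (h4.comp (0 : E) ι.hasFDerivAt)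
    refine h3.congr_fderiv (ContinuousLinearMap.ext fun v => ?_)
    simp [he, hι]
  have hE0 : HasFDerivAt (fun v => evL (Γ v)) ((ContinuousLinearEquiv.refl ℝ E : E ≃L[ℝ] E) :
      E →L[ℝ] E) 0 := by
    refine ((evL (E := E)).hasFDerivAt.comp (0 : E) hΓ0).congr_fderiv
      (ContinuousLinearMap.ext fun v => ?_)
    simp only [ContinuousLinearMap.comp_apply, hS, primL_apply, constL_apply, evL_apply,
      ContinuousLinearEquiv.coe_refl, ContinuousLinearMap.coe_id', id_eq]
    simp only [primOp, ContinuousMap.coe_mk]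
    rw [intervalIntegral.integral_congr (g := fun _ => v) (fun t ht => by
      rw [uIcc_of_le zero_le_one] at ht
      simp only [IccExtend_of_mem (zero_le_one' ℝ) _ ht, ContinuousMap.const_apply])]
    simp
  have hEs : ContDiffOn ℝ ∞ (fun v => evL (Γ v)) W :=
    (evL (E := E)).contDiff.comp_contDiffOn hΓs
  obtain ⟨T, hT, h0T, hTW, hTs⟩ := exists_local_inverse hWo h0W hEs _ hE0
  have hfT : (T : E → E) = fun v => evL (Γ v) := by funext v; rw [hT]
  have hval : ∀ v ∈ W, ∀ t : K01, Γ v t =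
      ∫ x in (0 : ℝ)..t, IccExtend (zero_le_one' ℝ) (ptApply (N (Γ v)) (constL v)) x := by
    intro v hv t
    have h1 := (hΓeq v hv).2
    have h2 : Γ v t = F (v, Γ v) t := congrArg (fun f : C(K01, E) => f t) h1
    rw [h2]
    rfl
  refine ⟨T, h0T, ?_, fun v hv => (hTW hv).2, ?_, hTs, fun v hv => ?_⟩
  · rw [hT, evL_apply]
    have h1 : Γ 0 = 0 := by
      have h2 : T1.symm 0 = 0 := by
        have := T1.left_inv h0T1
        rwa [hT10] at this
      simp only [hΓ, map_zero, h2]
      rfl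
    rw [h1]; rfl
  · rw [hfT]
    exact hEs.mono hTW
  · have hvW := hTW hv
    obtain ⟨hn, -⟩ := hΓeq v hvW
    have hmem : ∀ (t : ℝ) (ht : t ∈ Icc (0 : ℝ) 1),
        IccExtend (zero_le_one' ℝ) (Γ v) t = Γ v ⟨t, ht⟩ :=
      fun t ht => IccExtend_of_mem (zero_le_one' ℝ) _ ht
    refine ⟨IccExtend (zero_le_one' ℝ) (Γ v), ?_, ?_, ?_, ?_⟩
    · rw [hmem 0 (by simp), hval v hvW]
      simp
    · rw [hmem 1 (by simp), hT, evL_apply]
    · intro t ht
      rw [hmem t ht]
      exact ((Γ v).norm_coe_le_norm _).trans_lt (hn.trans_le (min_le_right _ _))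
    · intro t ht
      have hg : Continuous (IccExtend (zero_le_one' ℝ) (ptApply (N (Γ v)) (constL v))) :=
        (ptApply (N (Γ v)) (constL v)).continuous.Icc_extend'
      have h1 : HasDerivAt (fun u : ℝ => ∫ x in (0 : ℝ)..u,
          IccExtend (zero_le_one' ℝ) (ptApply (N (Γ v)) (constL v)) x)
          (IccExtend (zero_le_one' ℝ) (ptApply (N (Γ v)) (constL v)) t) t :=
        intervalIntegral.integral_hasDerivAt_right (hg.intervalIntegrable _ _)
          (hg.stronglyMeasurableAtFilter _ _) hg.continuousAt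
      have h2 : IccExtend (zero_le_one' ℝ) (ptApply (N (Γ v)) (constL v)) t =
          R (IccExtend (zero_le_one' ℝ) (Γ v) t) v := by
        rw [hmem t ht, IccExtend_of_mem (zero_le_one' ℝ) _ ht]
        rw [ptApply_apply]
        simp only [hN, ContinuousMap.comp_apply, constL_apply, ContinuousMap.const_apply]
        rw [hRtx _ (((Γ v).norm_coe_le_norm _).trans (hn.le.trans (min_le_left _ _)))]
      rw [h2] at h1
      refine h1.hasDerivWithinAt.congr (fun u hu => ?_) ?_
      · rw [hmem u hu, hval v hvW]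
      · rw [hmem t ht, hval v hvW]

end Pool.Agent.X91.BL
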