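import Pool.Agent.X91.BL.Exp

/-! The local form of the theorem: in exponential coordinates the stabilizer is a linear subspace
near the identity. -/

set_option autoImplicit false

open scoped Topology ContDiff
open Set Metric Filter

noncomputable section

namespace Pool.Agent.X91.BL

/-- A curve whose velocity is nearly constant comes back only if it does not move. -/
theorem period {X : Type} [NormedAddCommGroup X] [NormedSpace ℝ X] {c c' : ℝ → X} {w : X}
    (h0 : c 0 = 0) (hd : ∀ t ∈ Icc (0 : ℝ) 1, HasDerivWithinAt c (c' t) (Icc 0 1) t)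
    (hb : ∀ t ∈ Icc (0 : ℝ) 1, ‖c' t - w‖ ≤ ‖c t‖ / 3) : c 1 = 0 ↔ w = 0 := by
  have hcont : ContinuousOn (fun t => ‖c t‖) (Icc (0 : ℝ) 1) :=
    ContinuousOn.norm fun t ht => (hd t ht).continuousWithinAt
  obtain ⟨t₀, ht₀, hmax⟩ := isCompact_Icc.exists_isMaxOn (nonempty_Icc.2 zero_le_one) hcont
  have hA : ∀ t ∈ Icc (0 : ℝ) 1, ‖c t‖ ≤ ‖c t₀‖ := fun t ht => hmax ht
  have hg : ∀ t ∈ Icc (0 : ℝ) 1, HasDerivWithinAt (fun t => c t - t • w) (c' t - w) (Icc 0 1) t := by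
    intro t ht
    have h2 : HasDerivWithinAt (fun t : ℝ => t • w) w (Icc 0 1) t := by
      simpa using ((hasDerivAt_id t).smul_const w).hasDerivWithinAt
    exact (hd t ht).sub h2
  have hseg := norm_image_sub_le_of_norm_deriv_le_segment' (C := ‖c t₀‖ / 3) hg
    (fun t ht => (hb t (Ico_subset_Icc_self ht)).trans (by
      have := hA t (Ico_subset_Icc_self ht)
      linarith))
  have hall : ∀ t ∈ Icc (0 : ℝ) 1, ‖c t - t • w‖ ≤ ‖c t₀‖ / 3 := by
    intro t ht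
    have h1 := hseg t ht
    simp only [h0, zero_smul, sub_zero] at h1
    refine h1.trans ?_
    have h2 : 0 ≤ ‖c t₀‖ / 3 := by positivity
    nlinarith [ht.1, ht.2]
  have h1 := hall t₀ ht₀
  have h2 := hall 1 (by simp)
  rw [one_smul] at h2
  have h3 : ‖t₀ • w‖ ≤ ‖w‖ := by
    rw [norm_smul, Real.norm_of_nonneg ht₀.1]
    exact mul_le_of_le_one_left (norm_nonneg _) ht₀.2
  have h4 : ‖c t₀‖ ≤ ‖c t₀ - t₀ • w‖ + ‖t₀ • w‖ := norm_le_norm_sub_add _ _
  constructor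
  · intro h
    rw [h, zero_sub, norm_neg] at h2
    have h5 : ‖w‖ ≤ 0 := by linarith
    exact norm_le_zero_iff.1 h5
  · intro h
    rw [h] at h2 h3
    simp only [smul_zero, norm_zero, sub_zero] at h2 h3
    rw [h] at h1
    simp only [smul_zero, sub_zero] at h1
    have h5 : ‖c t₀‖ ≤ 0 := by linarith [norm_nonneg (c t₀)]
    have h6 : ‖c 1‖ ≤ 0 := by linarith
    exact norm_le_zero_iff.1 h6

theorem local_chart {E X : Type} [NormedAddCommGroup E] [NormedSpace ℝ E] [CompleteSpace E]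
    [NormedAddCommGroup X] [NormedSpace ℝ X] (μ : E × E → E) (σ : E × X → X) {r : ℝ} (hr : 0 < r)
    (hμ : ContDiffOn ℝ ∞ μ (ball 0 r)) (hσ : ContDiffOn ℝ ∞ σ (ball 0 r))
    (hμ1 : ∀ x, ‖x‖ < r → μ (x, 0) = x) (hμ2 : ∀ y, ‖y‖ < r → μ (0, y) = y)
    (hσ1 : σ (0, 0) = 0)
    (hact : ∀ x y, ‖x‖ < r → ‖y‖ < r → σ (μ (x, y), 0) = σ (x, σ (y, 0)))
    {δ : ℝ} (hδ : 0 < δ) :
    ∃ T : OpenPartialHomeomorph E E, (0 : E) ∈ T.source ∧ T 0 = 0 ∧ T.target ⊆ ball 0 δ ∧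
      ContDiffOn ℝ ∞ T T.source ∧ ContDiffOn ℝ ∞ T.symm T.target ∧
      ∀ v ∈ T.source, (σ (T v, 0) = 0 ↔
        ((fderiv ℝ σ 0).comp (ContinuousLinearMap.inl ℝ E X)) v = 0) := by
  set R : E → E →L[ℝ] E := fun y => (fderiv ℝ μ (0, y)).comp (ContinuousLinearMap.inl ℝ E E) with hR
  set Z : X → E →L[ℝ] X := fun y => (fderiv ℝ σ (0, y)).comp (ContinuousLinearMap.inl ℝ E X) with hZ
  have hin : ∀ {Y : Type} [NormedAddCommGroup Y] (y : Y), ‖y‖ < r →
      ((0 : E), y) ∈ ball (0 : E × Y) r := by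
    intro Y _ y hy
    rw [mem_ball_zero_iff, Prod.norm_def]
    exact max_lt (by simpa using hr) hy
  have hin2 : ∀ {Y : Type} [NormedAddCommGroup Y] (y : E), ‖y‖ < r →
      (y, (0 : Y)) ∈ ball (0 : E × Y) r := by
    intro Y _ y hy
    rw [mem_ball_zero_iff, Prod.norm_def]
    exact max_lt hy (by simpa using hr)
  have hμd : ∀ p ∈ ball (0 : E × E) r, HasFDerivAt μ (fderiv ℝ μ p) p := fun p hp =>
    ((hμ.contDiffAt (isOpen_ball.mem_nhds hp)).differentiableAt (by simp)).hasFDerivAt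
  have hσd : ∀ p ∈ ball (0 : E × X) r, HasFDerivAt σ (fderiv ℝ σ p) p := fun p hp =>
    ((hσ.contDiffAt (isOpen_ball.mem_nhds hp)).differentiableAt (by simp)).hasFDerivAt
  have hRs : ContDiffOn ℝ ∞ R (ball 0 r) := by
    have h1 := ((contDiffOn_infty_iff_fderiv_of_isOpen isOpen_ball).1 hμ).2
    have h2 : ContDiffOn ℝ ∞ (fun y : E => fderiv ℝ μ (0, y)) (ball 0 r) :=
      h1.comp (contDiff_const.prodMk contDiff_id).contDiffOn fun y hy => hin y (by simpa using hy)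
    exact h2.clm_comp contDiffOn_const
  have hZs : ContDiffOn ℝ ∞ Z (ball 0 r) := by
    have h1 := ((contDiffOn_infty_iff_fderiv_of_isOpen isOpen_ball).1 hσ).2
    have h2 : ContDiffOn ℝ ∞ (fun y : X => fderiv ℝ σ (0, y)) (ball 0 r) :=
      h1.comp (contDiff_const.prodMk contDiff_id).contDiffOn fun y hy => hin y (by simpa using hy)
    exact h2.clm_comp contDiffOn_const
  have hR0 : R 0 = ContinuousLinearMap.id ℝ E := by
    have h1 : HasFDerivAt (fun x : E => μ (x, 0)) (R 0) 0 :=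
      HasFDerivAt.comp (g := μ) (f := fun x : E => (x, (0 : E))) (0 : E)
        (hμd (0, 0) (hin 0 (by simpa using hr))) (hasFDerivAt_prodMk_left (0 : E) (0 : E))
    have h2 : HasFDerivAt (fun x : E => μ (x, 0)) (ContinuousLinearMap.id ℝ E) 0 := by
      refine (hasFDerivAt_id (0 : E)).congr_of_eventuallyEq ?_
      filter_upwards [ball_mem_nhds (0 : E) hr] with x hx
      exact hμ1 x (by simpa using hx)
    exact h1.unique h2
  -- bounds near the origin
  have hZ0 : ∃ L ρ : ℝ, 0 < L ∧ 0 < ρ ∧ ∀ y : X, ‖y‖ < ρ → ‖Z y - Z 0‖ ≤ L * ‖y‖ := by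
    have h1 : DifferentiableAt ℝ Z 0 :=
      (hZs.contDiffAt (isOpen_ball.mem_nhds (mem_ball_self hr))).differentiableAt (by simp)
    obtain ⟨L, hL⟩ := h1.hasFDerivAt.isBigO_sub.bound
    obtain ⟨ρ, hρ, h2⟩ := Metric.eventually_nhds_iff.1 hL
    refine ⟨max L 1, ρ, by positivity, hρ, fun y hy => ?_⟩
    have h3 := h2 (y := y) (by simpa using hy)
    rw [sub_zero] at h3
    exact h3.trans (mul_le_mul_of_nonneg_right (le_max_left _ _) (norm_nonneg _))
  obtain ⟨L, ρ, hL, hρ, hZL⟩ := hZ0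
  have hcs : ∃ ε : ℝ, 0 < ε ∧ ∀ y : E, ‖y‖ < ε → ‖σ (y, 0)‖ < min ρ r := by
    have h1 : ContinuousAt (fun y : E => σ (y, 0)) 0 := by
      have h2 : ContinuousAt σ ((0 : E), (0 : X)) :=
        (hσd (0, 0) (hin 0 (by simpa using hr))).continuousAt
      exact ContinuousAt.comp (f := fun y : E => (y, (0 : X))) (g := σ) h2 (by fun_prop)
    have h3 : Tendsto (fun y : E => ‖σ (y, 0)‖) (𝓝 0) (𝓝 0) := by
      have := h1.norm.tendsto
      rwa [hσ1, norm_zero] at this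
    obtain ⟨ε, hε, h4⟩ := Metric.eventually_nhds_iff.1 (h3.eventually (gt_mem_nhds
      (lt_min hρ hr)))
    exact ⟨ε, hε, fun y hy => h4 (by simpa using hy)⟩
  obtain ⟨ε₁, hε₁, hcs⟩ := hcs
  set ε := min (min ε₁ r) (min δ (1 / (3 * L))) with hε
  have hε0 : 0 < ε := lt_min (lt_min hε₁ hr) (lt_min hδ (by positivity))
  have hεε₁ : ε ≤ ε₁ := (min_le_left _ _).trans (min_le_left _ _)
  have hεr : ε ≤ r := (min_le_left _ _).trans (min_le_right _ _)
  have hεδ : ε ≤ δ := (min_le_right _ _).trans (min_le_left _ _)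
  have hεL : ε ≤ 1 / (3 * L) := (min_le_right _ _).trans (min_le_right _ _)
  have hkey : ∀ y : E, ‖y‖ < ε →
      ((fderiv ℝ σ (y, 0)).comp (ContinuousLinearMap.inl ℝ E X)).comp (R y) = Z (σ (y, 0)) := by
    intro y hy
    have hyr : ‖y‖ < r := hy.trans_le hεr
    have h1 : HasFDerivAt (fun x : E => μ (x, y)) (R y) 0 :=
      HasFDerivAt.comp (g := μ) (f := fun x : E => (x, y)) (0 : E)
        (hμd (0, y) (hin y hyr)) (hasFDerivAt_prodMk_left (0 : E) y)
    have h2 : HasFDerivAt (fun z : E => σ (z, 0))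
        ((fderiv ℝ σ (y, 0)).comp (ContinuousLinearMap.inl ℝ E X)) (μ (0, y)) := by
      rw [hμ2 y hyr]
      exact HasFDerivAt.comp (g := σ) (f := fun x : E => (x, (0 : X))) y
        (hσd (y, 0) (hin2 y hyr)) (hasFDerivAt_prodMk_left y (0 : X))
    have h3 : HasFDerivAt (fun x : E => σ (μ (x, y), 0))
        (((fderiv ℝ σ (y, 0)).comp (ContinuousLinearMap.inl ℝ E X)).comp (R y)) 0 :=
      HasFDerivAt.comp (g := fun z : E => σ (z, 0)) (f := fun x : E => μ (x, y)) (0 : E) h2 h1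
    have hsr : ‖σ (y, 0)‖ < r := (hcs y (hy.trans_le hεε₁)).trans_le (min_le_right _ _)
    have h4 : HasFDerivAt (fun x : E => σ (x, σ (y, 0))) (Z (σ (y, 0))) 0 :=
      HasFDerivAt.comp (g := σ) (f := fun x : E => (x, σ (y, 0))) (0 : E)
        (hσd (0, σ (y, 0)) (hin _ hsr)) (hasFDerivAt_prodMk_left (0 : E) _)
    have h5 : HasFDerivAt (fun x : E => σ (μ (x, y), 0)) (Z (σ (y, 0))) 0 := by
      refine h4.congr_of_eventuallyEq ?_
      filter_upwards [ball_mem_nhds (0 : E) hr] with x hx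
      exact hact x y (by simpa using hx) hyr
    exact h3.unique h5
  obtain ⟨T, h0T, hT0, hTε, hTs, hTs', hcurve⟩ := exists_exp R hr hRs hR0 hε0
  refine ⟨T, h0T, hT0, ?_, hTs, hTs', ?_⟩
  · intro y hy
    obtain ⟨γ, -, h1, hn, -⟩ := hcurve _ (T.map_target hy)
    rw [T.right_inv hy] at h1
    rw [mem_ball_zero_iff, ← h1]
    exact (hn 1 (by simp)).trans_le hεδ
  · intro v hv
    obtain ⟨γ, hγ0, hγ1, hn, hd⟩ := hcurve v hv
    have hvε : ‖v‖ < ε := by simpa using hTε hv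
    have hcd : ∀ t ∈ Icc (0 : ℝ) 1, HasDerivWithinAt (fun t => σ (γ t, 0))
        (Z (σ (γ t, 0)) v) (Icc 0 1) t := by
      intro t ht
      have hγr : ‖γ t‖ < r := (hn t ht).trans_le hεr
      have h1 : HasFDerivAt (fun z : E => σ (z, 0))
          ((fderiv ℝ σ (γ t, 0)).comp (ContinuousLinearMap.inl ℝ E X)) (γ t) :=
        HasFDerivAt.comp (g := σ) (f := fun x : E => (x, (0 : X))) (γ t)
          (hσd (γ t, 0) (hin2 _ hγr)) (hasFDerivAt_prodMk_left (γ t) (0 : X))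
      have h2 := h1.comp_hasDerivWithinAt t (hd t ht)
      have h3 := congrArg (fun L : E →L[ℝ] X => L v) (hkey (γ t) (hn t ht))
      simp only [ContinuousLinearMap.comp_apply] at h3
      rw [← h3]
      exact h2
    have hc0 : σ (γ 0, 0) = 0 := by rw [hγ0, hσ1]
    have hmain := period (c := fun t => σ (γ t, 0)) (c' := fun t => Z (σ (γ t, 0)) v) (w := Z 0 v)
      hc0 hcd (fun t ht => by
        have h1 : ‖σ (γ t, 0)‖ < ρ :=
          (hcs _ ((hn t ht).trans_le hεε₁)).trans_le (min_le_left _ _)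
        have h2 := hZL _ h1
        have h3 : Z (σ (γ t, 0)) v - Z 0 v = (Z (σ (γ t, 0)) - Z 0) v := rfl
        rw [h3]
        have h4 : L * ‖v‖ ≤ 1 / 3 := by
          have h5 : ‖v‖ ≤ 1 / (3 * L) := hvε.le.trans hεL
          calc L * ‖v‖ ≤ L * (1 / (3 * L)) := mul_le_mul_of_nonneg_left h5 hL.le
            _ = 1 / 3 := by field_simp
        calc ‖(Z (σ (γ t, 0)) - Z 0) v‖ ≤ ‖Z (σ (γ t, 0)) - Z 0‖ * ‖v‖ :=
              ContinuousLinearMap.le_opNorm _ _
          _ ≤ (L * ‖σ (γ t, 0)‖) * ‖v‖ := mul_le_mul_of_nonneg_right h2 (norm_nonneg _)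
          _ = (L * ‖v‖) * ‖σ (γ t, 0)‖ := by ring
          _ ≤ (1 / 3) * ‖σ (γ t, 0)‖ := mul_le_mul_of_nonneg_right h4 (norm_nonneg _)
          _ = ‖σ (γ t, 0)‖ / 3 := by ring)
    simp only [hγ1] at hmain
    rw [hmain]
    exact Iff.rfl

end Pool.Agent.X91.BL
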