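import Pool.Agent.X91.BL.Loc

/-! Stabilizers of smooth actions of Banach-Lie groups. -/

set_option autoImplicit false

open scoped Topology ContDiff Manifold
open Set Metric Filter

noncomputable section

namespace Pool.Agent.X91.BL

theorem mem_max {E : Type} [NormedAddCommGroup E] [NormedSpace ℝ E]
    {G : Type} [TopologicalSpace G] [ChartedSpace E G] [IsManifold 𝓘(ℝ, E) ∞ G]
    (e : OpenPartialHomeomorph G E)
    (h1 : ContMDiffOn 𝓘(ℝ, E) 𝓘(ℝ, E) ∞ e e.source)
    (h2 : ContMDiffOn 𝓘(ℝ, E) 𝓘(ℝ, E) ∞ e.symm e.target) :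
    e ∈ IsManifold.maximalAtlas 𝓘(ℝ, E) ∞ G := by
  intro e' he'
  have hm : e' ∈ IsManifold.maximalAtlas 𝓘(ℝ, E) ∞ G := IsManifold.subset_maximalAtlas he'
  have h3 := contMDiffOn_of_mem_maximalAtlas hm
  have h4 := contMDiffOn_symm_of_mem_maximalAtlas hm
  have h5 : ContDiffOn ℝ ∞ (e' ∘ e.symm) (e.symm ≫ₕ e').source := by
    rw [← contMDiffOn_iff_contDiffOn]
    refine h3.comp (h2.mono fun x hx => ?_) fun x hx => ?_
    · rw [OpenPartialHomeomorph.trans_source] at hx
      exact hx.1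
    · rw [OpenPartialHomeomorph.trans_source] at hx
      exact hx.2
  have h6 : ContDiffOn ℝ ∞ (e ∘ e'.symm) (e'.symm ≫ₕ e).source := by
    rw [← contMDiffOn_iff_contDiffOn]
    refine h1.comp (h4.mono fun x hx => ?_) fun x hx => ?_
    · rw [OpenPartialHomeomorph.trans_source] at hx
      exact hx.1
    · rw [OpenPartialHomeomorph.trans_source] at hx
      exact hx.2
  have h7 : (e.symm ≫ₕ e').target = (e'.symm ≫ₕ e).source := by
    rw [OpenPartialHomeomorph.trans_target, OpenPartialHomeomorph.trans_source]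
    simp
  have h8 : (e'.symm ≫ₕ e).target = (e.symm ≫ₕ e').source := by
    rw [OpenPartialHomeomorph.trans_target, OpenPartialHomeomorph.trans_source]
    simp
  constructor
  · rw [contDiffGroupoid, mem_groupoid_of_pregroupoid]
    constructor
    · change ContDiffOn ℝ ∞ _ _
      simpa [Function.comp_def] using h5
    · change ContDiffOn ℝ ∞ _ _
      rw [h7]
      simpa [Function.comp_def] using h6
  · rw [contDiffGroupoid, mem_groupoid_of_pregroupoid]
    constructor
    · change ContDiffOn ℝ ∞ _ _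
      simpa [Function.comp_def] using h6
    · change ContDiffOn ℝ ∞ _ _
      rw [h8]
      simpa [Function.comp_def] using h5

theorem stabilizer_submanifold (E : Type) [NormedAddCommGroup E] [NormedSpace ℝ E]
    [CompleteSpace E] (G : Type) [TopologicalSpace G] [ChartedSpace E G] [Group G]
    [LieGroup 𝓘(ℝ, E) ∞ G] (X : Type) [NormedAddCommGroup X] [NormedSpace ℝ X]
    (M : Type) [TopologicalSpace M] [ChartedSpace X M] [IsManifold 𝓘(ℝ, X) ∞ M] [MulAction G M]
    (hs : ContMDiff (𝓘(ℝ, E).prod 𝓘(ℝ, X)) 𝓘(ℝ, X) ∞ (fun p : G × M => p.1 • p.2)) (m : M) :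
    ∃ V : Submodule ℝ E, IsClosed (V : Set E) ∧
      ∀ h ∈ MulAction.stabilizer G m,
        ∃ e ∈ IsManifold.maximalAtlas 𝓘(ℝ, E) ∞ G,
          h ∈ e.source ∧
          e '' (e.source ∩ (MulAction.stabilizer G m : Set G)) = e.target ∩ (V : Set E) := by
  set κ := chartAt E (1 : G) with hκ
  set ψ := chartAt X m with hψ
  set a : E := κ 1 with ha
  set b : X := ψ m with hb
  have h1s : (1 : G) ∈ κ.source := mem_chart_source E 1
  have hms : m ∈ ψ.source := mem_chart_source X m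
  have hat : a ∈ κ.target := κ.map_source h1s
  have hbt : b ∈ ψ.target := ψ.map_source hms
  have hκa : κ.symm a = 1 := κ.left_inv h1s
  have hψb : ψ.symm b = m := ψ.left_inv hms
  have hκs : ∀ g ∈ κ.source, ContMDiffAt 𝓘(ℝ, E) 𝓘(ℝ, E) ∞ κ g := fun g hg =>
    (contMDiffOn_chart (I := 𝓘(ℝ, E)) (n := ∞) (x := (1 : G))).contMDiffAt
      (κ.open_source.mem_nhds hg)
  have hκt : ∀ x ∈ κ.target, ContMDiffAt 𝓘(ℝ, E) 𝓘(ℝ, E) ∞ κ.symm x := fun x hx =>
    (contMDiffOn_chart_symm (I := 𝓘(ℝ, E)) (n := ∞) (x := (1 : G))).contMDiffAt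
      (κ.open_target.mem_nhds hx)
  have hψs : ∀ g ∈ ψ.source, ContMDiffAt 𝓘(ℝ, X) 𝓘(ℝ, X) ∞ ψ g := fun g hg =>
    (contMDiffOn_chart (I := 𝓘(ℝ, X)) (n := ∞) (x := m)).contMDiffAt
      (ψ.open_source.mem_nhds hg)
  have hψt : ∀ x ∈ ψ.target, ContMDiffAt 𝓘(ℝ, X) 𝓘(ℝ, X) ∞ ψ.symm x := fun x hx =>
    (contMDiffOn_chart_symm (I := 𝓘(ℝ, X)) (n := ∞) (x := m)).contMDiffAt
      (ψ.open_target.mem_nhds hx)
  have hmulc : Continuous fun p : G × G => p.1 * p.2 := (contMDiff_mul 𝓘(ℝ, E) ∞).continuous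
  have hsc : Continuous fun p : G × M => p.1 • p.2 := hs.continuous
  -- the local expressions
  set μ : E × E → E := fun p => κ (κ.symm (p.1 + a) * κ.symm (p.2 + a)) - a with hμ
  set σ : E × X → X := fun p => ψ (κ.symm (p.1 + a) • ψ.symm (p.2 + b)) - b with hσ
  have hcκ : ContinuousAt (fun x : E => κ.symm (x + a)) 0 := by
    have h1 : ContinuousAt κ.symm (0 + a) := by rw [zero_add]; exact κ.continuousAt_symm hat
    exact ContinuousAt.comp (f := fun x : E => x + a) h1 (by fun_prop)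
  have hcψ : ContinuousAt (fun x : X => ψ.symm (x + b)) 0 := by
    have h1 : ContinuousAt ψ.symm (0 + b) := by rw [zero_add]; exact ψ.continuousAt_symm hbt
    exact ContinuousAt.comp (f := fun x : X => x + b) h1 (by fun_prop)
  have hC1 : ∀ᶠ p : E × E in 𝓝 0, p.1 + a ∈ κ.target ∧ p.2 + a ∈ κ.target ∧
      κ.symm (p.1 + a) * κ.symm (p.2 + a) ∈ κ.source ∧ κ.symm (p.2 + a) • m ∈ ψ.source := by
    refine Filter.Eventually.and ?_ (Filter.Eventually.and ?_ (Filter.Eventually.and ?_ ?_))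
    · have h1 : ContinuousAt (fun p : E × E => p.1 + a) 0 := by fun_prop
      refine h1.eventually_mem (κ.open_target.mem_nhds ?_)
      simpa using hat
    · have h1 : ContinuousAt (fun p : E × E => p.2 + a) 0 := by fun_prop
      refine h1.eventually_mem (κ.open_target.mem_nhds ?_)
      simpa using hat
    · have h1 : ContinuousAt (fun p : E × E => κ.symm (p.1 + a)) 0 :=
        ContinuousAt.comp (f := fun p : E × E => p.1) (g := fun x : E => κ.symm (x + a)) hcκ
          continuousAt_fst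
      have h2 : ContinuousAt (fun p : E × E => κ.symm (p.2 + a)) 0 :=
        ContinuousAt.comp (f := fun p : E × E => p.2) (g := fun x : E => κ.symm (x + a)) hcκ
          continuousAt_snd
      have h3 : ContinuousAt (fun p : E × E => κ.symm (p.1 + a) * κ.symm (p.2 + a)) 0 :=
        ContinuousAt.comp (g := fun q : G × G => q.1 * q.2) hmulc.continuousAt (h1.prodMk h2)
      refine h3.eventually_mem (κ.open_source.mem_nhds ?_)
      simpa [hκa] using h1s
    · have h2 : ContinuousAt (fun p : E × E => κ.symm (p.2 + a)) 0 :=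
        ContinuousAt.comp (f := fun p : E × E => p.2) (g := fun x : E => κ.symm (x + a)) hcκ
          continuousAt_snd
      have h3 : ContinuousAt (fun p : E × E => κ.symm (p.2 + a) • m) 0 :=
        ContinuousAt.comp (g := fun q : G × M => q.1 • q.2) hsc.continuousAt
          (h2.prodMk continuousAt_const)
      refine h3.eventually_mem (ψ.open_source.mem_nhds ?_)
      simpa [hκa] using hms
  have hC2 : ∀ᶠ p : E × X in 𝓝 0, p.1 + a ∈ κ.target ∧ p.2 + b ∈ ψ.target ∧
      κ.symm (p.1 + a) • ψ.symm (p.2 + b) ∈ ψ.source := by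
    refine Filter.Eventually.and ?_ (Filter.Eventually.and ?_ ?_)
    · have h1 : ContinuousAt (fun p : E × X => p.1 + a) 0 := by fun_prop
      refine h1.eventually_mem (κ.open_target.mem_nhds ?_)
      simpa using hat
    · have h1 : ContinuousAt (fun p : E × X => p.2 + b) 0 := by fun_prop
      refine h1.eventually_mem (ψ.open_target.mem_nhds ?_)
      simpa using hbt
    · have h1 : ContinuousAt (fun p : E × X => κ.symm (p.1 + a)) 0 :=
        ContinuousAt.comp (f := fun p : E × X => p.1) (g := fun x : E => κ.symm (x + a)) hcκ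
          continuousAt_fst
      have h2 : ContinuousAt (fun p : E × X => ψ.symm (p.2 + b)) 0 :=
        ContinuousAt.comp (f := fun p : E × X => p.2) (g := fun x : X => ψ.symm (x + b)) hcψ
          continuousAt_snd
      have h3 : ContinuousAt (fun p : E × X => κ.symm (p.1 + a) • ψ.symm (p.2 + b)) 0 :=
        ContinuousAt.comp (g := fun q : G × M => q.1 • q.2) hsc.continuousAt (h1.prodMk h2)
      refine h3.eventually_mem (ψ.open_source.mem_nhds ?_)
      simpa [hκa, hψb] using hms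
  obtain ⟨r₁, hr₁, hC1⟩ := Metric.eventually_nhds_iff_ball.1 hC1
  obtain ⟨r₂, hr₂, hC2⟩ := Metric.eventually_nhds_iff_ball.1 hC2
  set r := min r₁ r₂ with hr
  have hr0 : 0 < r := lt_min hr₁ hr₂
  have hC1' : ∀ x y : E, ‖x‖ < r → ‖y‖ < r → x + a ∈ κ.target ∧ y + a ∈ κ.target ∧
      κ.symm (x + a) * κ.symm (y + a) ∈ κ.source ∧ κ.symm (y + a) • m ∈ ψ.source := by
    intro x y hx hy
    refine hC1 (x, y) ?_
    rw [mem_ball_zero_iff, Prod.norm_def]
    exact max_lt (hx.trans_le (min_le_left _ _)) (hy.trans_le (min_le_left _ _))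
  have hμs : ContDiffOn ℝ ∞ μ (ball 0 r) := by
    intro p hp
    obtain ⟨h1, h2, h3, -⟩ := hC1 p (ball_subset_ball (min_le_left _ _) hp)
    apply ContDiffAt.contDiffWithinAt
    have k1 : ContMDiffAt 𝓘(ℝ, E × E) 𝓘(ℝ, E) ∞ (fun p : E × E => κ.symm (p.1 + a)) p :=
      ContMDiffAt.comp (g := κ.symm) (f := fun p : E × E => p.1 + a) p (hκt _ h1)
        (contDiff_fst.add contDiff_const).contMDiff.contMDiffAt
    have k2 : ContMDiffAt 𝓘(ℝ, E × E) 𝓘(ℝ, E) ∞ (fun p : E × E => κ.symm (p.2 + a)) p :=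
      ContMDiffAt.comp (g := κ.symm) (f := fun p : E × E => p.2 + a) p (hκt _ h2)
        (contDiff_snd.add contDiff_const).contMDiff.contMDiffAt
    have k3 : ContMDiffAt 𝓘(ℝ, E × E) 𝓘(ℝ, E) ∞
        (fun p : E × E => κ (κ.symm (p.1 + a) * κ.symm (p.2 + a))) p :=
      ContMDiffAt.comp (g := κ) (f := fun p : E × E => κ.symm (p.1 + a) * κ.symm (p.2 + a)) p
        (hκs _ h3) (k1.mul k2)
    exact (contMDiffAt_iff_contDiffAt.1 k3).sub contDiffAt_const
  have hσs : ContDiffOn ℝ ∞ σ (ball 0 r) := by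
    intro p hp
    obtain ⟨h1, h2, h3⟩ := hC2 p (ball_subset_ball (min_le_right _ _) hp)
    apply ContDiffAt.contDiffWithinAt
    have k1 : ContMDiffAt 𝓘(ℝ, E × X) 𝓘(ℝ, E) ∞ (fun p : E × X => κ.symm (p.1 + a)) p :=
      ContMDiffAt.comp (g := κ.symm) (f := fun p : E × X => p.1 + a) p (hκt _ h1)
        (contDiff_fst.add contDiff_const).contMDiff.contMDiffAt
    have k2 : ContMDiffAt 𝓘(ℝ, E × X) 𝓘(ℝ, X) ∞ (fun p : E × X => ψ.symm (p.2 + b)) p :=
      ContMDiffAt.comp (g := ψ.symm) (f := fun p : E × X => p.2 + b) p (hψt _ h2)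
        (contDiff_snd.add contDiff_const).contMDiff.contMDiffAt
    have k4 : ContMDiffAt 𝓘(ℝ, E × X) 𝓘(ℝ, X) ∞
        (fun p : E × X => κ.symm (p.1 + a) • ψ.symm (p.2 + b)) p :=
      ContMDiffAt.comp (g := fun q : G × M => q.1 • q.2)
        (f := fun p : E × X => (κ.symm (p.1 + a), ψ.symm (p.2 + b))) p hs.contMDiffAt
        (k1.prodMk k2)
    have k3 : ContMDiffAt 𝓘(ℝ, E × X) 𝓘(ℝ, X) ∞
        (fun p : E × X => ψ (κ.symm (p.1 + a) • ψ.symm (p.2 + b))) p :=
      ContMDiffAt.comp (g := ψ) (f := fun p : E × X => κ.symm (p.1 + a) • ψ.symm (p.2 + b)) p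
        (hψs _ h3) k4
    exact (contMDiffAt_iff_contDiffAt.1 k3).sub contDiffAt_const
  have hn0 : ‖(0 : E)‖ < r := by simpa using hr0
  have hμ1 : ∀ x, ‖x‖ < r → μ (x, 0) = x := by
    intro x hx
    simp only [hμ, zero_add, hκa, mul_one]
    rw [κ.right_inv (hC1' x 0 hx hn0).1, add_sub_cancel_right]
  have hμ2 : ∀ y, ‖y‖ < r → μ (0, y) = y := by
    intro y hy
    simp only [hμ, zero_add, hκa, one_mul]
    rw [κ.right_inv (hC1' 0 y hn0 hy).2.1, add_sub_cancel_right]
  have hσ1 : σ (0, 0) = 0 := by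
    simp only [hσ, zero_add, hκa, hψb, one_smul]
    exact sub_self _
  have hact : ∀ x y, ‖x‖ < r → ‖y‖ < r → σ (μ (x, y), 0) = σ (x, σ (y, 0)) := by
    intro x y hx hy
    obtain ⟨h1, h2, h3, h4⟩ := hC1' x y hx hy
    simp only [hσ, hμ, sub_add_cancel, zero_add, hψb]
    rw [κ.left_inv h3, ψ.left_inv h4, mul_smul]
  obtain ⟨T, h0T, hT0, hTr, hTs, hTs', hTmain⟩ :=
    local_chart μ σ hr0 hμs hσs hμ1 hμ2 hσ1 hact hr0
  set D : E →L[ℝ] X := (fderiv ℝ σ 0).comp (ContinuousLinearMap.inl ℝ E X) with hD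
  refine ⟨LinearMap.ker (D : E →ₗ[ℝ] X), ?_, fun h hh => ?_⟩
  · have : ((LinearMap.ker (D : E →ₗ[ℝ] X) : Submodule ℝ E) : Set E) = D ⁻¹' {0} := by
      ext v; simp
    rw [this]
    exact isClosed_singleton.preimage D.continuous
  have hmL : ∀ g : G, ContMDiff 𝓘(ℝ, E) 𝓘(ℝ, E) ∞ (fun x : G => g * x) := fun g =>
    contMDiff_mul_left
  -- translations
  set tr : OpenPartialHomeomorph E E := (Homeomorph.addRight (-a)).toOpenPartialHomeomorph with htr
  have htr1 : ∀ x : E, tr x = x - a := fun x => by simp [htr, sub_eq_add_neg]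
  have htr2 : ∀ x : E, tr.symm x = x + a := fun x => by
    change x + -(-a) = x + a
    rw [neg_neg]
  set L : OpenPartialHomeomorph G G :=
    { toFun := fun g => h⁻¹ * g
      invFun := fun g => h * g
      source := univ
      target := univ
      map_source' := fun _ _ => mem_univ _
      map_target' := fun _ _ => mem_univ _
      left_inv' := fun g _ => mul_inv_cancel_left h g
      right_inv' := fun g _ => inv_mul_cancel_left h g
      open_source := isOpen_univ
      open_target := isOpen_univ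
      continuousOn_toFun := (hmL h⁻¹).continuous.continuousOn
      continuousOn_invFun := (hmL h).continuous.continuousOn } with hL
  set e : OpenPartialHomeomorph G E := ((L ≫ₕ κ) ≫ₕ tr) ≫ₕ T.symm with he
  have hsrc : ∀ g : G, g ∈ e.source ↔ h⁻¹ * g ∈ κ.source ∧ κ (h⁻¹ * g) - a ∈ T.target := by
    intro g
    simp only [he, OpenPartialHomeomorph.trans_source, mem_inter_iff, mem_preimage,
      OpenPartialHomeomorph.coe_trans, Function.comp_apply, htr1, T.symm_source]
    simp [hL, htr]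
  have hcoe : ∀ g : G, e g = T.symm (κ (h⁻¹ * g) - a) := by
    intro g
    simp only [he, OpenPartialHomeomorph.coe_trans, Function.comp_apply, htr1]
    rfl
  have htgt : ∀ v : E, v ∈ e.target → v ∈ T.source ∧ T v + a ∈ κ.target := by
    intro v hv
    have h1 := e.map_target hv
    have h2 := e.right_inv hv
    rw [hsrc] at h1
    rw [hcoe] at h2
    have h3 : v ∈ T.source := by
      rw [← h2]; exact T.map_target h1.2
    refine ⟨h3, ?_⟩
    have h4 : T v = κ (h⁻¹ * e.symm v) - a := by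
      rw [← h2, T.right_inv h1.2, h2]
    rw [h4, sub_add_cancel]
    exact κ.map_source h1.1
  have hcoes : ∀ v : E, e.symm v = h * κ.symm (T v + a) := by
    intro v
    simp only [he, OpenPartialHomeomorph.coe_trans_symm, Function.comp_apply,
      OpenPartialHomeomorph.symm_symm, htr2]
    rfl
  refine ⟨e, mem_max e ?_ ?_, ?_, ?_⟩
  · intro g hg
    apply ContMDiffAt.contMDiffWithinAt
    obtain ⟨h1, h2⟩ := (hsrc g).1 hg
    have k0 : ContMDiffAt 𝓘(ℝ, E) 𝓘(ℝ, E) ∞ (fun g : G => κ (h⁻¹ * g)) g :=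
      ContMDiffAt.comp (g := κ) (f := fun g : G => h⁻¹ * g) g (hκs _ h1) (hmL h⁻¹).contMDiffAt
    have k1 : ContMDiffAt 𝓘(ℝ, E) 𝓘(ℝ, E) ∞ (fun x : E => T.symm (x - a)) (κ (h⁻¹ * g)) := by
      apply ContDiffAt.contMDiffAt
      refine ContDiffAt.comp (g := T.symm) (f := fun x : E => x - a) _
        (hTs'.contDiffAt (T.open_target.mem_nhds h2)) (contDiffAt_id.sub contDiffAt_const)
    have k2 := ContMDiffAt.comp (g := fun x : E => T.symm (x - a)) g k1 k0
    have k3 : (e : G → E) = (fun x : E => T.symm (x - a)) ∘ fun g : G => κ (h⁻¹ * g) := by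
      funext g; rw [hcoe]; rfl
    rw [k3]
    exact k2
  · intro v hv
    apply ContMDiffAt.contMDiffWithinAt
    obtain ⟨h1, h2⟩ := htgt v hv
    have k0 : ContMDiffAt 𝓘(ℝ, E) 𝓘(ℝ, E) ∞ (fun v : E => T v + a) v :=
      ((hTs.contDiffAt (T.open_source.mem_nhds h1)).add contDiffAt_const).contMDiffAt
    have k1 : ContMDiffAt 𝓘(ℝ, E) 𝓘(ℝ, E) ∞ (fun v : E => κ.symm (T v + a)) v :=
      ContMDiffAt.comp (g := κ.symm) (f := fun v : E => T v + a) v (hκt _ h2) k0
    have k2 : ContMDiffAt 𝓘(ℝ, E) 𝓘(ℝ, E) ∞ (fun v : E => h * κ.symm (T v + a)) v :=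
      ContMDiffAt.comp (g := fun g : G => h * g) (f := fun v : E => κ.symm (T v + a)) v
        (hmL h).contMDiffAt k1
    have k3 : (e.symm : E → G) = fun v : E => h * κ.symm (T v + a) := by
      funext v; rw [hcoes]
    rw [k3]
    exact k2
  · rw [hsrc, inv_mul_cancel]
    refine ⟨h1s, ?_⟩
    have : κ 1 - a = 0 := sub_self _
    rw [this, ← hT0]
    exact T.map_source h0T
  · -- the stabilizer in the chart
    have hmem : ∀ g ∈ e.source, (e g ∈ LinearMap.ker (D : E →ₗ[ℝ] X) ↔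
        g ∈ MulAction.stabilizer G m) := by
      intro g hg
      obtain ⟨h1, h2⟩ := (hsrc g).1 hg
      have h3 : e g ∈ T.source := by rw [hcoe]; exact T.map_target h2
      have h4 := hTmain (e g) h3
      have h5 : T (e g) = κ (h⁻¹ * g) - a := by rw [hcoe]; exact T.right_inv h2
      have hxr : ‖κ (h⁻¹ * g) - a‖ < r := by simpa using hTr h2
      have h6 : (h⁻¹ * g) • m ∈ ψ.source := by
        have := (hC1' 0 _ hn0 hxr).2.2.2
        rwa [sub_add_cancel, κ.left_inv h1] at this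
      have h7 : σ (T (e g), 0) = ψ ((h⁻¹ * g) • m) - b := by
        rw [h5]
        simp only [hσ, sub_add_cancel, zero_add, hψb]
        rw [κ.left_inv h1]
      rw [h7, sub_eq_zero] at h4
      have h8 : ψ ((h⁻¹ * g) • m) = b ↔ (h⁻¹ * g) • m = m :=
        ⟨fun hq => ψ.injOn h6 hms hq, fun hq => by rw [hq]⟩
      rw [h8] at h4
      have h9 : (e g ∈ LinearMap.ker (D : E →ₗ[ℝ] X)) ↔ D (e g) = 0 := by
        rw [LinearMap.mem_ker]; rfl
      rw [h9, ← h4]
      have hh' : h • m = m := MulAction.mem_stabilizer_iff.1 hh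
      rw [MulAction.mem_stabilizer_iff, mul_smul, inv_smul_eq_iff, hh']
    ext v
    constructor
    · rintro ⟨g, ⟨hg1, hg2⟩, rfl⟩
      exact ⟨e.map_source hg1, (hmem g hg1).2 hg2⟩
    · rintro ⟨hv1, hv2⟩
      refine ⟨e.symm v, ⟨e.map_target hv1, ?_⟩, e.right_inv hv1⟩
      have h1 := hmem _ (e.map_target hv1)
      rw [e.right_inv hv1] at h1
      exact h1.1 hv2

end Pool.Agent.X91.BL
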