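import Mathlib
import Pool.Agent.Helper186.LocalFlow

/-! Superposition operators given by functions that are smooth on a ball; a smooth inverse function
theorem on a fixed neighbourhood. -/

set_option autoImplicit false

open scoped Topology ContDiff
open Set Metric
open Pool.Agent.Helper186

noncomputable section

namespace Pool.Agent.X91.BL

/-- The radial retraction onto the closed ball of radius `s`. -/
def rho {E : Type} [NormedAddCommGroup E] [NormedSpace ℝ E] (s : ℝ) (x : E) : E :=
  (s / max s ‖x‖) • x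

theorem rho_of_le {E : Type} [NormedAddCommGroup E] [NormedSpace ℝ E] {s : ℝ} (hs : 0 < s) {x : E}
    (hx : ‖x‖ ≤ s) : rho s x = x := by
  rw [rho, max_eq_left hx, div_self hs.ne', one_smul]

theorem norm_rho_le {E : Type} [NormedAddCommGroup E] [NormedSpace ℝ E] {s : ℝ} (hs : 0 < s)
    (x : E) : ‖rho s x‖ ≤ s := by
  have h0 : 0 < max s ‖x‖ := lt_max_of_lt_left hs
  rw [rho, norm_smul, Real.norm_of_nonneg (by positivity), div_mul_eq_mul_div, div_le_iff₀ h0]
  exact mul_le_mul_of_nonneg_left (le_max_right _ _) hs.le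

theorem continuous_rho {E : Type} [NormedAddCommGroup E] [NormedSpace ℝ E] {s : ℝ} (hs : 0 < s) :
    Continuous (rho s : E → E) := by
  unfold rho
  refine (Continuous.div continuous_const (continuous_const.max continuous_norm) fun x => ?_).smul
    continuous_id
  exact (lt_max_of_lt_left hs).ne'

section

variable {K : Type} [TopologicalSpace K] [CompactSpace K]

/-- The superposition operator has the expected derivative. -/
theorem hasFDerivAt_comp_ball {E G : Type} [NormedAddCommGroup E] [NormedSpace ℝ E]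
    [NormedAddCommGroup G] [NormedSpace ℝ G] (f : C(E, G)) (f' : C(E, E →L[ℝ] G)) {r : ℝ}
    (hf : ∀ x ∈ ball (0 : E) r, HasFDerivAt f (f' x) x) (γ : C(K, E)) (hγ : ‖γ‖ < r) :
    HasFDerivAt (fun γ : C(K, E) => f.comp γ) (ptApply (f'.comp γ)) γ := by
  rw [hasFDerivAt_iff_isLittleO_nhds_zero, Asymptotics.isLittleO_iff]
  intro ε hε
  have hcomp : IsCompact (Set.range γ) := isCompact_range γ.continuous
  have huc := hcomp.uniformContinuousAt_of_continuousAt (f := f')
    (fun a _ => f'.continuous.continuousAt) (Metric.dist_mem_uniformity hε)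
  rw [Metric.mem_uniformity_dist] at huc
  obtain ⟨δ₁, hδ₁, hδ'⟩ := huc
  set δ := min δ₁ (r - ‖γ‖) with hδdef
  have hδ : 0 < δ := lt_min hδ₁ (by linarith)
  have hball : Metric.ball (0 : C(K, E)) δ ∈ 𝓝 (0 : C(K, E)) := Metric.ball_mem_nhds _ hδ
  filter_upwards [hball] with h hh
  rw [ContinuousMap.norm_le _ (by positivity)]
  intro k
  have hk : ‖h k‖ < δ := lt_of_le_of_lt (h.norm_coe_le_norm k) (by simpa using hh)
  have key : ‖f (γ k + h k) - f (γ k) - (f' (γ k)) (h k)‖ ≤ ε * ‖h k‖ := by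
    have hconv : Convex ℝ (Metric.ball (γ k) δ) := convex_ball _ _
    have := hconv.norm_image_sub_le_of_norm_hasFDerivWithin_le' (f := f) (f' := fun x => f' x)
      (φ := f' (γ k)) (C := ε) (x := γ k) (y := γ k + h k)
      (fun x hx => (hf x (by
        rw [mem_ball_zero_iff]
        rw [mem_ball, dist_eq_norm] at hx
        have h1 : ‖x‖ ≤ ‖x - γ k‖ + ‖γ k‖ := norm_le_norm_sub_add x (γ k)
        have h2 := γ.norm_coe_le_norm k
        have h3 : δ ≤ r - ‖γ‖ := min_le_right _ _
        linarith)).hasFDerivWithinAt)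
      (fun x hx => by
        have := @hδ' (γ k) x (by
          have : dist (γ k) x < δ := by simpa [dist_comm] using hx
          exact this.trans_le (min_le_left _ _)) (Set.mem_range_self k)
        simp only [mem_ofPred_eq] at this
        rw [dist_comm, dist_eq_norm] at this
        exact this.le)
      (Metric.mem_ball_self hδ)
      (by simpa [dist_eq_norm] using hk)
    simpa using this
  calc ‖(((f.comp (γ + h)) - (f.comp γ) - (ptApply (f'.comp γ)) h : C(K, G))) k‖
      = ‖f (γ k + h k) - f (γ k) - (f' (γ k)) (h k)‖ := by simp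
    _ ≤ ε * ‖h k‖ := key
    _ ≤ ε * ‖h‖ := by gcongr; exact h.norm_coe_le_norm k

theorem contDiffOn_comp_ball {E : Type} [NormedAddCommGroup E] [NormedSpace ℝ E] (n : ℕ) :
    ∀ {G : Type} [NormedAddCommGroup G] [NormedSpace ℝ G] (f : C(E, G)) (r : ℝ),
      ContDiffOn ℝ n f (ball 0 r) →
      ContDiffOn ℝ n (fun γ : C(K, E) => f.comp γ) (ball 0 r) := by
  induction n with
  | zero =>
    intro G _ _ f r _
    exact (contDiff_zero.2 (ContinuousMap.continuous_postcomp f)).contDiffOn
  | succ n ih =>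
    intro G _ _ f r hf γ₀ hγ₀
    rw [mem_ball_zero_iff] at hγ₀
    have hr : 0 < r := (norm_nonneg _).trans_lt hγ₀
    have hf1 : ContDiffOn ℝ ((n : ℕ∞ω) + 1) f (ball 0 r) := by simpa using hf
    rw [contDiffOn_succ_iff_fderiv_of_isOpen isOpen_ball] at hf1
    obtain ⟨s, hs1, hs2⟩ := exists_between hγ₀
    have hs0 : 0 < s := (norm_nonneg _).trans_lt hs1
    have hcont : Continuous (fun x : E => fderiv ℝ f (rho s x)) := by
      rw [← continuousOn_univ]
      refine hf1.2.2.continuousOn.comp (continuous_rho hs0).continuousOn fun x _ => ?_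
      rw [mem_ball_zero_iff]
      exact (norm_rho_le hs0 x).trans_lt hs2
    have hd : ∀ x ∈ ball (0 : E) s, HasFDerivAt f
        ((⟨fun x => fderiv ℝ f (rho s x), hcont⟩ : C(E, E →L[ℝ] G)) x) x := by
      intro x hx
      rw [mem_ball_zero_iff] at hx
      simp only [ContinuousMap.coe_mk]
      rw [rho_of_le hs0 hx.le]
      exact ((hf1.1 x (by rw [mem_ball_zero_iff]; linarith)).differentiableAt
        (isOpen_ball.mem_nhds (by rw [mem_ball_zero_iff]; linarith))).hasFDerivAt
    have key := fun γ (hγ : ‖γ‖ < s) => hasFDerivAt_comp_ball (K := K) f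
      ⟨fun x => fderiv ℝ f (rho s x), hcont⟩ hd γ hγ
    have hc2 : ContDiffOn ℝ n (⟨fun x => fderiv ℝ f (rho s x), hcont⟩ : C(E, E →L[ℝ] G))
        (ball 0 s) := by
      refine (hf1.2.2.mono (ball_subset_ball hs2.le)).congr fun x hx => ?_
      rw [mem_ball_zero_iff] at hx
      simp only [ContinuousMap.coe_mk]
      rw [rho_of_le hs0 hx.le]
    have h2 : ContDiffOn ℝ n (fun γ : C(K, E) =>
        ptApply ((⟨fun x => fderiv ℝ f (rho s x), hcont⟩ : C(E, E →L[ℝ] G)).comp γ))
        (ball 0 s) :=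
      (contDiff_ptApply (n := n)).comp_contDiffOn (ih _ s hc2)
    have h3 : ContDiffOn ℝ ((n : ℕ∞ω) + 1) (fun γ : C(K, E) => f.comp γ) (ball 0 s) := by
      rw [contDiffOn_succ_iff_fderiv_of_isOpen isOpen_ball]
      refine ⟨fun γ hγ => (key γ (by simpa using hγ)).differentiableAt.differentiableWithinAt,
        fun h => absurd h (by simp), h2.congr fun γ hγ => (key γ (by simpa using hγ)).fderiv⟩
    have h4 : ContDiffAt ℝ ((n : ℕ∞ω) + 1) (fun γ : C(K, E) => f.comp γ) γ₀ :=
      h3.contDiffAt (isOpen_ball.mem_nhds (by rw [mem_ball_zero_iff]; exact hs1))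
    have h5 := h4.contDiffWithinAt (s := ball 0 r)
    simpa using h5

theorem contDiffOn_comp_ball_infty {E : Type} [NormedAddCommGroup E] [NormedSpace ℝ E]
    {G : Type} [NormedAddCommGroup G] [NormedSpace ℝ G] (f : C(E, G)) (r : ℝ)
    (hf : ContDiffOn ℝ ∞ f (ball 0 r)) :
    ContDiffOn ℝ ∞ (fun γ : C(K, E) => f.comp γ) (ball 0 r) := by
  rw [contDiffOn_infty] at hf ⊢
  exact fun n => contDiffOn_comp_ball n f r (hf n)

end

/-- The inverse function theorem for smooth maps, on a fixed neighbourhood. -/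
theorem exists_local_inverse {P Q : Type} [NormedAddCommGroup P] [NormedSpace ℝ P] [CompleteSpace P]
    [NormedAddCommGroup Q] [NormedSpace ℝ Q] {f : P → Q} {a : P} {O : Set P} (hO : IsOpen O)
    (ha : a ∈ O) (hf : ContDiffOn ℝ ∞ f O) (f' : P ≃L[ℝ] Q)
    (hf' : HasFDerivAt f (f' : P →L[ℝ] Q) a) :
    ∃ T : OpenPartialHomeomorph P Q, (∀ x, T x = f x) ∧ a ∈ T.source ∧ T.source ⊆ O ∧
      ContDiffOn ℝ ∞ T.symm T.target := by
  have hca : ContDiffAt ℝ ∞ f a := hf.contDiffAt (hO.mem_nhds ha)
  set T0 := hca.toOpenPartialHomeomorph f hf' (by simp) with hT0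
  have hfd : ContDiffOn ℝ ∞ (fderiv ℝ f) O :=
    ((contDiffOn_infty_iff_fderiv_of_isOpen hO).1 hf).2
  set S : Set (P →L[ℝ] Q) := range ((↑) : (P ≃L[ℝ] Q) → P →L[ℝ] Q) with hS
  have hSo : IsOpen S := ContinuousLinearEquiv.isOpen
  have hO' : IsOpen (O ∩ fderiv ℝ f ⁻¹' S) := hfd.continuousOn.isOpen_inter_preimage hO hSo
  refine ⟨T0.restrOpen _ hO', fun x => ?_, ?_, ?_, ?_⟩
  · simp [hT0]
  · rw [OpenPartialHomeomorph.restrOpen_source]
    refine ⟨hca.mem_toOpenPartialHomeomorph_source hf' (by simp), ha, ?_⟩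
    rw [mem_preimage, hf'.fderiv]
    exact ⟨f', rfl⟩
  · rw [OpenPartialHomeomorph.restrOpen_source]
    exact fun x hx => hx.2.1
  · intro y hy
    set T := T0.restrOpen _ hO' with hT
    have hx : T.symm y ∈ T.source := T.map_target hy
    have hx2 : T.symm y ∈ O ∩ fderiv ℝ f ⁻¹' S := by
      rw [hT, OpenPartialHomeomorph.restrOpen_source] at hx
      exact hx.2
    obtain ⟨e, he⟩ := hx2.2
    have hfc : (T : P → Q) = f := by
      funext x; simp [hT, hT0]
    have hcx : ContDiffAt ℝ ∞ f (T.symm y) := hf.contDiffAt (hO.mem_nhds hx2.1)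
    refine (T.contDiffAt_symm hy (f₀' := e) ?_ ?_).contDiffWithinAt
    · rw [hfc, he]
      exact (hcx.differentiableAt (by simp)).hasFDerivAt
    · rw [hfc]
      exact hcx

end Pool.Agent.X91.BL
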